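import Mathlib
set_option autoImplicit false
open Metric Set Filter Topology
open scoped ContDiff InnerProductSpace Laplacian

namespace Pool.Agent.W545.Orb

/-- Euclidean space of dimension `n`. -/
abbrev E (n : ℕ) := EuclideanSpace ℝ (Fin n)

/-- Let `Γ` be a group of linear isometries of Euclidean space (finite in all applications) and `0 < R`.
`IsSteklov n R Γ σ u` says that `u` solves the Steklov problem, with parameter `σ`, on the compact flat
Riemannian orbifold with boundary `closedBall 0 R / Γ`: `u` is a function on the closed ball (extended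
by zero outside, so that a function is determined by its values on the closed ball) which is smooth up
to the boundary and `Γ`-invariant (these are the smooth functions on the quotient orbifold), harmonic
in the open ball, and whose outward normal derivative on the bounding sphere is `σ` times `u`. -/
def IsSteklov (n : ℕ) (R : ℝ) (Γ : Subgroup (E n ≃ₗᵢ[ℝ] E n)) (σ : ℝ) (u : E n → ℝ) : Prop :=
  (∀ x ∉ closedBall (0 : E n) R, u x = 0) ∧
  ContDiffOn ℝ ∞ u (closedBall 0 R) ∧
  (∀ x ∈ ball (0 : E n) R, Δ u x = 0) ∧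
  (∀ x ∈ sphere (0 : E n) R, fderivWithin ℝ u (closedBall 0 R) x (R⁻¹ • x) = σ * u x) ∧
  (∀ γ ∈ Γ, ∀ x ∈ closedBall (0 : E n) R, u (γ x) = u x)

theorem IsSteklov.add {n : ℕ} {R : ℝ} {Γ : Subgroup (E n ≃ₗᵢ[ℝ] E n)} {σ : ℝ} {u v : E n → ℝ}
    (ha : IsSteklov n R Γ σ u) (hb : IsSteklov n R Γ σ v) : IsSteklov n R Γ σ (u + v) := by
  obtain ⟨a1, a2, a3, a4, a5⟩ := ha
  obtain ⟨b1, b2, b3, b4, b5⟩ := hb
  refine ⟨fun x hx => by simp [a1 x hx, b1 x hx], a2.add b2, fun x hx => ?_, fun x hx => ?_,
    fun γ hγ x hx => by simp [a5 γ hγ x hx, b5 γ hγ x hx]⟩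
  · have hu : ContDiffAt ℝ 2 u x := ((a2.mono ball_subset_closedBall).contDiffAt
      (isOpen_ball.mem_nhds hx)).of_le (by norm_cast)
    have hv : ContDiffAt ℝ 2 v x := ((b2.mono ball_subset_closedBall).contDiffAt
      (isOpen_ball.mem_nhds hx)).of_le (by norm_cast)
    rw [hu.laplacian_add hv, a3 x hx, b3 x hx, add_zero]
  · rcases eq_or_ne R 0 with h0 | h0
    · subst h0
      have h1 := a4 x hx
      have h2 := b4 x hx
      simp only [inv_zero, zero_smul, map_zero] at h1 h2 ⊢
      rw [Pi.add_apply, mul_add, ← h1, ← h2, add_zero]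
    · have hR : 0 < R := lt_of_le_of_ne (by
        rw [mem_sphere_zero_iff_norm] at hx
        rw [← hx]; positivity) (Ne.symm h0)
      have hUD : UniqueDiffOn ℝ (closedBall (0 : E n) R) := by
        apply uniqueDiffOn_convex (convex_closedBall _ _)
        rw [interior_closedBall _ hR.ne']
        exact nonempty_ball.2 hR
      have hxc := sphere_subset_closedBall hx
      have h1 : DifferentiableWithinAt ℝ u (closedBall 0 R) x :=
        a2.differentiableOn (by simp) x hxc
      have h2 : DifferentiableWithinAt ℝ v (closedBall 0 R) x :=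
        b2.differentiableOn (by simp) x hxc
      rw [fderivWithin_add (hUD x hxc) h1 h2, add_apply, a4 x hx,
        b4 x hx, Pi.add_apply, mul_add]

theorem IsSteklov.zero {n : ℕ} {R : ℝ} {Γ : Subgroup (E n ≃ₗᵢ[ℝ] E n)} {σ : ℝ} :
    IsSteklov n R Γ σ 0 := by
  refine ⟨fun _ _ => rfl, contDiffOn_const, fun x hx => ?_, fun x hx => ?_, fun _ _ _ _ => rfl⟩
  · have h : (0 : E n → ℝ) = (0 : ℝ) • (0 : E n → ℝ) := by simp
    rw [h, InnerProductSpace.laplacian_smul (0 : ℝ) (by exact contDiffAt_const)]
    simp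
  · simp

theorem IsSteklov.smul {n : ℕ} {R : ℝ} {Γ : Subgroup (E n ≃ₗᵢ[ℝ] E n)} {σ : ℝ} (c : ℝ)
    {u : E n → ℝ} (ha : IsSteklov n R Γ σ u) : IsSteklov n R Γ σ (c • u) := by
  obtain ⟨a1, a2, a3, a4, a5⟩ := ha
  refine ⟨fun x hx => by simp [a1 x hx], a2.const_smul c, fun x hx => ?_, fun x hx => ?_,
    fun γ hγ x hx => by simp [a5 γ hγ x hx]⟩
  · have hu : ContDiffAt ℝ 2 u x := ((a2.mono ball_subset_closedBall).contDiffAt
      (isOpen_ball.mem_nhds hx)).of_le (by norm_cast)
    rw [InnerProductSpace.laplacian_smul c hu, a3 x hx, smul_zero]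
  · rcases eq_or_ne R 0 with h0 | h0
    · subst h0
      have h1 := a4 x hx
      simp only [inv_zero, zero_smul, map_zero] at h1 ⊢
      rw [Pi.smul_apply, smul_eq_mul, mul_left_comm, ← h1, mul_zero]
    · have hR : 0 < R := lt_of_le_of_ne (by
        rw [mem_sphere_zero_iff_norm] at hx
        rw [← hx]; positivity) (Ne.symm h0)
      have hUD : UniqueDiffOn ℝ (closedBall (0 : E n) R) := by
        apply uniqueDiffOn_convex (convex_closedBall _ _)
        rw [interior_closedBall _ hR.ne']
        exact nonempty_ball.2 hR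
      have hxc := sphere_subset_closedBall hx
      have h1 : DifferentiableWithinAt ℝ u (closedBall 0 R) x :=
        a2.differentiableOn (by simp) x hxc
      rw [fderivWithin_const_smul (hUD x hxc) h1 c, smul_apply, a4 x hx,
        Pi.smul_apply, smul_eq_mul, smul_eq_mul]
      ring

/-- The Steklov eigenspace of the flat orbifold `closedBall 0 R / Γ` for the real number `σ`: the space
of all solutions `u` of the Steklov problem `IsSteklov n R Γ σ u`.  It is nonzero exactly when `σ` is a
Steklov eigenvalue of the orbifold, and then its dimension is the multiplicity of `σ`. -/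
def steklovSpace (n : ℕ) (R : ℝ) (Γ : Subgroup (E n ≃ₗᵢ[ℝ] E n)) (σ : ℝ) :
    Submodule ℝ (E n → ℝ) where
  carrier := {u | IsSteklov n R Γ σ u}
  add_mem' := IsSteklov.add
  zero_mem' := IsSteklov.zero
  smul_mem' := IsSteklov.smul

end Pool.Agent.W545.Orb
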