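import Pool.Agent.W545.Orb.Max
set_option autoImplicit false
open Metric Set Filter Topology
open scoped ContDiff InnerProductSpace Laplacian

namespace Pool.Agent.W545.Orb

variable {V : Type*} [NormedAddCommGroup V] [InnerProductSpace ℝ V] [FiniteDimensional ℝ V]

theorem laplacian_comp_smul {u : V → ℝ} {t : ℝ} (ht : t ≠ 0) (x : V) :
    Δ (fun y => u (t • y)) x = t ^ 2 * Δ u (t • x) := by
  rw [InnerProductSpace.laplacian_eq_iteratedFDeriv_stdOrthonormalBasis,
    InnerProductSpace.laplacian_eq_iteratedFDeriv_stdOrthonormalBasis]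
  simp only
  rw [Finset.mul_sum]
  refine Finset.sum_congr rfl fun i _ => ?_
  set g : V ≃L[ℝ] V := ContinuousLinearEquiv.smulLeft (Units.mk0 t ht) with hg
  have hgx : ∀ y, g y = t • y := fun y => rfl
  have h1 := g.iteratedFDerivWithin_comp_right u (s := univ) uniqueDiffOn_univ (x := x) (mem_univ _) 2
  simp only [preimage_univ, iteratedFDerivWithin_univ] at h1
  have h2 : (fun y => u (t • y)) = u ∘ g := by funext y; simp [hgx]
  rw [h2, h1, ContinuousMultilinearMap.compContinuousLinearMap_apply]
  have h3 : (fun j : Fin 2 => (g : V →L[ℝ] V) (![(stdOrthonormalBasis ℝ V) i, (stdOrthonormalBasis ℝ V) i] j))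
      = fun j => (fun _ : Fin 2 => t) j • ![(stdOrthonormalBasis ℝ V) i, (stdOrthonormalBasis ℝ V) i] j := by
    funext j
    exact hgx _
  rw [h3, ContinuousMultilinearMap.map_smul_univ]
  simp [hgx]

/-- The Euler relation for Steklov eigenfunctions of a ball. -/
theorem euler (hV : 0 < Module.finrank ℝ V) {u : V → ℝ} {R σ : ℝ} (hR : 0 < R)
    (hu : ContDiffOn ℝ 2 u (closedBall 0 R)) (hΔ : ∀ x ∈ ball (0 : V) R, Δ u x = 0)
    (hb : ∀ x ∈ sphere (0 : V) R, fderivWithin ℝ u (closedBall 0 R) x (R⁻¹ • x) = σ * u x) :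
    ∀ x ∈ ball (0 : V) R, fderiv ℝ u x x = σ * R * u x := by
  have hUD : UniqueDiffOn ℝ (closedBall (0 : V) R) := by
    apply uniqueDiffOn_convex (convex_closedBall _ _)
    rw [interior_closedBall _ hR.ne']
    exact nonempty_ball.2 hR
  have hFc : ContinuousOn (fderivWithin ℝ u (closedBall 0 R)) (closedBall 0 R) :=
    hu.continuousOn_fderivWithin hUD (by norm_num)
  have huc : UniformContinuousOn (fderivWithin ℝ u (closedBall 0 R)) (closedBall 0 R) :=
    (isCompact_closedBall (0 : V) R).uniformContinuousOn_of_continuous hFc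
  have hF : ∀ y ∈ closedBall (0 : V) R,
      HasFDerivWithinAt u (fderivWithin ℝ u (closedBall 0 R) y) (closedBall 0 R) y :=
    fun y hy => ((hu.differentiableOn (by norm_num)) y hy).hasFDerivWithinAt
  have hub : ContDiffOn ℝ 2 u (ball 0 R) := hu.mono ball_subset_closedBall
  -- the scaled differences
  have main : ∀ ε > 0, ∀ᶠ t in 𝓝[<] (1 : ℝ), ∀ x ∈ closedBall (0 : V) R,
      |(u x - u (t • x)) / (1 - t) - σ * R * u x| ≤ ε := by
    intro ε hε
    obtain ⟨δ, hδ, hδ'⟩ := Metric.uniformContinuousOn_iff_le.1 huc (ε / R) (by positivity)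
    have hev : ∀ᶠ t in 𝓝[<] (1 : ℝ), t ∈ Ioo (max 0 (1 - δ / R)) 1 := by
      apply Ioo_mem_nhdsLT
      apply max_lt one_pos
      have : 0 < δ / R := by positivity
      linarith
    filter_upwards [hev] with t ht
    have ht0 : 0 < t := lt_of_le_of_lt (le_max_left _ _) ht.1
    have ht1 : t < 1 := ht.2
    have htδ : (1 - t) * R ≤ δ := by
      have h1 : 1 - δ / R < t := lt_of_le_of_lt (le_max_right _ _) ht.1
      have h2 : 1 - t < δ / R := by linarith
      rw [lt_div_iff₀ hR] at h2
      exact h2.le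
    have hmaps : ∀ x ∈ closedBall (0 : V) R, t • x ∈ closedBall (0 : V) R := by
      intro x hx
      rw [mem_closedBall_zero_iff] at hx ⊢
      rw [norm_smul, Real.norm_of_nonneg ht0.le]
      nlinarith [norm_nonneg x]
    have hmapsb : ∀ x ∈ ball (0 : V) R, t • x ∈ ball (0 : V) R := by
      intro x hx
      rw [mem_ball_zero_iff] at hx ⊢
      rw [norm_smul, Real.norm_of_nonneg ht0.le]
      nlinarith [norm_nonneg x]
    set U : V → ℝ := fun x => (u x - u (t • x)) / (1 - t) - σ * R * u x with hU
    have hut : ContDiffOn ℝ 2 (fun x => u (t • x)) (closedBall (0 : V) R) :=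
      hu.comp (contDiff_const_smul t).contDiffOn hmaps
    have hUd : ContDiffOn ℝ 2 U (closedBall (0 : V) R) :=
      ((hu.sub hut).div_const _).sub (contDiffOn_const.mul hu)
    refine weak_max_abs hV (U := U) (hUd.mono ball_subset_closedBall) hUd.continuousOn ?_ ?_
    · intro x hx
      have e1 : ContDiffAt ℝ 2 u x := hub.contDiffAt (isOpen_ball.mem_nhds hx)
      have e2 : ContDiffAt ℝ 2 (fun x => u (t • x)) x :=
        (hut.mono ball_subset_closedBall).contDiffAt (isOpen_ball.mem_nhds hx)
      have e3 : U = (1 / (1 - t) - σ * R) • u + (- (1 / (1 - t))) • (fun x => u (t • x)) := by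
        funext y
        simp only [hU, Pi.add_apply, Pi.smul_apply, smul_eq_mul]
        ring
      have e4 : ContDiffAt ℝ 2 ((1 / (1 - t) - σ * R) • u) x :=
        e1.const_smul (1 / (1 - t) - σ * R)
      have e5 : ContDiffAt ℝ 2 ((- (1 / (1 - t))) • (fun x => u (t • x))) x :=
        e2.const_smul (- (1 / (1 - t)))
      rw [e3, e4.laplacian_add e5, InnerProductSpace.laplacian_smul _ e1,
        InnerProductSpace.laplacian_smul _ e2, laplacian_comp_smul ht0.ne', hΔ x hx,
        hΔ _ (hmapsb x hx)]
      simp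
    · intro x hx
      have hxc : x ∈ closedBall (0 : V) R := sphere_subset_closedBall hx
      have hxn : ‖x‖ = R := by rwa [mem_sphere_zero_iff_norm] at hx
      set F := fderivWithin ℝ u (closedBall 0 R) with hFdef
      have hconv : Convex ℝ (closedBall (0 : V) R ∩ closedBall x δ) :=
        (convex_closedBall _ _).inter (convex_closedBall _ _)
      have htx : t • x ∈ closedBall (0 : V) R ∩ closedBall x δ := by
        refine ⟨hmaps x hxc, ?_⟩
        rw [mem_closedBall, dist_eq_norm]
        have : t • x - x = (t - 1) • x := by rw [sub_smul, one_smul]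
        rw [this, norm_smul, Real.norm_eq_abs, abs_of_neg (by linarith), hxn]
        linarith
      have h1 := hconv.norm_image_sub_le_of_norm_hasFDerivWithin_le' (f := u) (f' := F) (φ := F x)
        (C := ε / R) (fun y hy => (hF y hy.1).mono inter_subset_left)
        (fun y hy => by
          have := hδ' y hy.1 x hxc hy.2
          rwa [dist_eq_norm] at this)
        (x := x) (y := t • x) ⟨hxc, mem_closedBall_self hδ.le⟩ htx
      have h2 : t • x - x = (t - 1) • x := by rw [sub_smul, one_smul]
      have h3 : F x x = σ * R * u x := by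
        have h4 := hb x hx
        rw [map_smul, smul_eq_mul] at h4
        field_simp at h4
        linarith
      rw [h2, map_smul, h3, norm_smul, hxn, Real.norm_eq_abs, Real.norm_eq_abs, abs_of_neg (show t - 1 < 0 by linarith), smul_eq_mul] at h1
      have h5 : ε / R * (-(t - 1) * R) = ε * (1 - t) := by field_simp; ring
      rw [h5] at h1
      have h6 : U x = -(u (t • x) - u x - (t - 1) * (σ * R * u x)) / (1 - t) := by
        have : 1 - t ≠ 0 := by linarith
        simp only [hU]
        field_simp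
        ring
      rw [h6, abs_div, abs_neg, abs_of_pos (show 0 < 1 - t by linarith), div_le_iff₀ (by linarith)]
      exact h1
  intro x hx
  have hxc := ball_subset_closedBall hx
  have hd : HasFDerivAt u (fderiv ℝ u x) x :=
    ((hub.contDiffAt (isOpen_ball.mem_nhds hx)).differentiableAt (by norm_num)).hasFDerivAt
  have hline : HasDerivAt (fun t : ℝ => t • x) x 1 := by
    simpa using (hasDerivAt_id (1 : ℝ)).smul_const x
  have hd2 : HasDerivAt (fun t : ℝ => u (t • x)) (fderiv ℝ u x x) 1 := by
    have hd' : HasFDerivAt u (fderiv ℝ u x) ((1 : ℝ) • x) := by rwa [one_smul]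
    exact hd'.comp_hasDerivAt (1 : ℝ) hline
  have h7 : Tendsto (fun t : ℝ => (u x - u (t • x)) / (1 - t)) (𝓝[<] 1) (𝓝 (fderiv ℝ u x x)) := by
    have h8 := (hasDerivAt_iff_tendsto_slope.1 hd2).mono_left
      (nhdsWithin_mono (1 : ℝ) (show Iio (1 : ℝ) ⊆ {1}ᶜ from fun y hy => (ne_of_lt hy)))
    refine h8.congr' ?_
    filter_upwards [self_mem_nhdsWithin] with t ht
    have ht' : t < 1 := ht
    rw [slope_def_field, one_smul, ← neg_sub (u x), ← neg_sub (1 : ℝ) t, neg_div_neg_eq]
  have h9 : ∀ ε > 0, |fderiv ℝ u x x - σ * R * u x| ≤ ε := by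
    intro ε hε
    have h10 : Tendsto (fun t : ℝ => |(u x - u (t • x)) / (1 - t) - σ * R * u x|) (𝓝[<] 1)
        (𝓝 |fderiv ℝ u x x - σ * R * u x|) := (h7.sub_const _).abs
    exact le_of_tendsto h10 ((main ε hε).mono fun t ht => ht x hxc)
  have h10 : |fderiv ℝ u x x - σ * R * u x| ≤ 0 :=
    le_of_forall_pos_le_add fun ε hε => by rw [zero_add]; exact h9 ε hε
  linarith [abs_eq_zero.1 (le_antisymm h10 (abs_nonneg _))]

end Pool.Agent.W545.Orb
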