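import Pool.Agent.W545.Orb.Link
set_option autoImplicit false
open Metric Set Filter Topology MvPolynomial
open scoped ContDiff InnerProductSpace Laplacian

namespace Pool.Agent.W545.Orb

variable {n : ℕ}

theorem uniqueDiff {R : ℝ} (hR : 0 < R) : UniqueDiffOn ℝ (closedBall (0 : E n) R) := by
  apply uniqueDiffOn_convex (convex_closedBall _ _)
  rw [interior_closedBall _ hR.ne']
  exact nonempty_ball.2 hR

theorem mem_of_W {S : Subgroup (Fin n → ℤˣ)} {R σ : ℝ} {k : ℕ} (hR : 0 < R) (hσ : σ * R = k)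
    {p : MvPolynomial (Fin n) ℝ} (hp : p ∈ W (adm S) k) :
    indicator (closedBall (0 : E n) R) (ev p) ∈ steklovSpace n R (signGroup S) σ := by
  obtain ⟨hp1, hp2, hp3⟩ := hp
  have heq : EqOn (indicator (closedBall (0 : E n) R) (ev p)) (ev p) (closedBall 0 R) :=
    fun x hx => indicator_of_mem hx _
  refine ⟨fun x hx => indicator_of_notMem hx _, (contDiff_ev p).contDiffOn.congr heq, ?_, ?_, ?_⟩
  · intro x hx
    have h1 : indicator (closedBall (0 : E n) R) (ev p) =ᶠ[𝓝 x] ev p := by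
      filter_upwards [isOpen_ball.mem_nhds hx] with y hy
      exact heq (ball_subset_closedBall hy)
    have h2 := InnerProductSpace.laplacian_congr_nhds h1
    rw [h2.eq_of_nhds, laplacian_ev, hp3]
    simp [ev]
  · intro x hx
    have hxc := sphere_subset_closedBall hx
    rw [fderivWithin_congr heq (heq hxc), heq hxc,
      ((contDiff_ev p).contDiffAt.differentiableAt (by simp)).fderivWithin (uniqueDiff hR x hxc),
      map_smul, euler_ev hp1, ← hσ, smul_eq_mul]
    field_simp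
  · intro γ hγ x hx
    have hx' : γ x ∈ closedBall (0 : E n) R := by
      rw [mem_closedBall_zero_iff] at hx ⊢
      rwa [LinearIsometryEquiv.norm_map]
    rw [heq hx, heq hx', ev_inv_of hp2 hγ]

theorem exists_poly (hn : 0 < n) {S : Subgroup (Fin n → ℤˣ)} {R σ : ℝ} (hR : 0 < R)
    {u : E n → ℝ} (hu : u ∈ steklovSpace n R (signGroup S) σ) :
    ∃ p : MvPolynomial (Fin n) ℝ, (∀ x ∈ closedBall (0 : E n) R, u x = ev p x) ∧
      (∀ k : ℕ, σ * R = k → p ∈ W (adm S) k) ∧ ((∀ k : ℕ, σ * R ≠ k) → p = 0) := by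
  obtain ⟨h1, h2, h3, h4, h5⟩ := hu
  have hV : 0 < Module.finrank ℝ (E n) := by simpa using hn
  have he := euler hV hR (h2.of_le (by norm_cast)) h3 h4
  obtain ⟨m, hm⟩ := exists_nat_gt (σ * R)
  obtain ⟨p, hp1, hp2, hp3⟩ := poly_of_hom hR m (σ * R) hm u (h2.mono ball_subset_closedBall) he
  have hc : ∀ x ∈ closedBall (0 : E n) R, u x = ev p x := by
    have h6 : EqOn u (ev p) (ball (0 : E n) R) := fun x hx => hp1 x hx
    have h7 := h6.of_subset_closure h2.continuousOn (contDiff_ev p).continuous.continuousOn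
      ball_subset_closedBall (by rw [closure_ball _ hR.ne'])
    exact fun x hx => h7 hx
  refine ⟨p, hc, fun k hk => ⟨hp2 k hk, ?_, ?_⟩, hp3⟩
  · apply inv_coeff hR
    intro γ hγ x hx
    have hx' : γ x ∈ closedBall (0 : E n) R := by
      rw [mem_closedBall_zero_iff, LinearIsometryEquiv.norm_map]
      exact (mem_ball_zero_iff.1 hx).le
    rw [← hc _ hx', ← hc x (ball_subset_closedBall hx)]
    exact h5 γ hγ x (ball_subset_closedBall hx)
  · apply poly_eq_of_ball hR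
    intro x hx
    rw [← laplacian_ev]
    have h6 : ev p =ᶠ[𝓝 x] u := by
      filter_upwards [isOpen_ball.mem_nhds hx] with y hy
      exact (hc y (ball_subset_closedBall hy)).symm
    rw [(InnerProductSpace.laplacian_congr_nhds h6).eq_of_nhds, h3 x hx]
    simp [ev]

theorem trivial_of_ne (hn : 0 < n) {S : Subgroup (Fin n → ℤˣ)} {R σ : ℝ} (hR : 0 < R)
    (h : ∀ k : ℕ, σ * R ≠ k) : steklovSpace n R (signGroup S) σ = ⊥ := by
  rw [eq_bot_iff]
  intro u hu
  obtain ⟨p, h1, -, h3⟩ := exists_poly hn hR hu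
  rw [Submodule.mem_bot]
  funext x
  by_cases hx : x ∈ closedBall (0 : E n) R
  · rw [h1 x hx, h3 h]
    simp [ev]
  · exact hu.1 x hx

theorem finrank_steklov {S : Subgroup (Fin n → ℤˣ)} {R σ : ℝ} {k : ℕ} (hR : 0 < R)
    (hσ : σ * R = k) (ℓ : Fin n) :
    Module.Finite ℝ (steklovSpace n R (signGroup S) σ) ∧
      Module.finrank ℝ (steklovSpace n R (signGroup S) σ) = Nat.card (T (adm S) ℓ k) := by
  have hn : 0 < n := Fin.pos ℓ
  let Ψ : W (adm S) k →ₗ[ℝ] steklovSpace n R (signGroup S) σ :=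
    { toFun := fun p => ⟨indicator (closedBall (0 : E n) R) (ev p.1), mem_of_W hR hσ p.2⟩
      map_add' := fun p q => by
        apply Subtype.ext
        funext x
        by_cases hx : x ∈ closedBall (0 : E n) R <;> simp [hx, ev]
      map_smul' := fun c p => by
        apply Subtype.ext
        funext x
        by_cases hx : x ∈ closedBall (0 : E n) R <;> simp [hx, ev] }
  have hinj : Function.Injective Ψ := by
    rintro ⟨p, hp⟩ ⟨q, hq⟩ h
    apply Subtype.ext
    apply poly_eq_of_ball hR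
    intro x hx
    have h1 := congrFun (congrArg Subtype.val h) x
    have hxc := ball_subset_closedBall hx
    simpa [Ψ, indicator_of_mem hxc] using h1
  have hsurj : Function.Surjective Ψ := by
    rintro ⟨u, hu⟩
    obtain ⟨p, h1, h2, -⟩ := exists_poly hn hR hu
    refine ⟨⟨p, h2 k hσ⟩, ?_⟩
    apply Subtype.ext
    funext x
    by_cases hx : x ∈ closedBall (0 : E n) R
    · simp [Ψ, indicator_of_mem hx, h1 x hx]
    · simp [Ψ, indicator_of_notMem hx, hu.1 x hx]
  let e := LinearEquiv.ofBijective Ψ ⟨hinj, hsurj⟩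
  obtain ⟨h1, h2⟩ := finrank_W (adm_add S) ℓ k
  exact ⟨Module.Finite.equiv e, by rw [← e.finrank_eq, h2]⟩

section count

variable (i0 i1 ℓ : Fin n)

/-- the group of sign vectors with equal signs at `i0` and `i1` -/
def S1 : Subgroup (Fin n → ℤˣ) where
  carrier := {ε | ε i0 = ε i1}
  mul_mem' := by
    intro a b ha hb
    simp only [Set.mem_ofPred_eq, Pi.mul_apply] at *
    rw [ha, hb]
  one_mem' := rfl
  inv_mem' := by
    intro a ha
    simp only [Set.mem_ofPred_eq, Pi.inv_apply] at *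
    rw [ha]

theorem mem_adm_S1 (h01 : i0 ≠ i1) (α : Fin n →₀ ℕ) :
    α ∈ adm (S1 i0 i1) ↔ Even (α i0 + α i1) ∧ ∀ i, i ≠ i0 → i ≠ i1 → Even (α i) := by
  classical
  constructor
  · intro h
    have hpow : ∀ m : ℕ, (-1 : ℤˣ) ^ m = 1 → Even m := by
      intro m hm
      rcases Nat.even_or_odd m with h1 | h1
      · exact h1
      · rw [h1.neg_one_pow] at hm
        exact absurd hm (by decide)
    constructor
    · have h1 := h (fun i => if i = i0 ∨ i = i1 then -1 else 1) (by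
        show (if i0 = i0 ∨ i0 = i1 then (-1 : ℤˣ) else 1) = if i1 = i0 ∨ i1 = i1 then -1 else 1
        simp)
      apply hpow
      rw [pow_add]
      rw [← Finset.prod_subset (Finset.subset_univ {i0, i1})] at h1
      · rw [Finset.prod_pair h01] at h1
        simpa using h1
      · intro x _ hx
        simp only [Finset.mem_insert, Finset.mem_singleton] at hx
        simp [hx]
    · intro i hi0 hi1
      have h1 := h (fun j => if j = i then -1 else 1) (by
        show (if i0 = i then (-1 : ℤˣ) else 1) = if i1 = i then -1 else 1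
        simp [Ne.symm hi0, Ne.symm hi1])
      apply hpow
      rw [Finset.prod_eq_single i] at h1
      · simpa using h1
      · intro b _ hb
        simp [hb]
      · simp
  · rintro ⟨h1, h2⟩ ε hε
    have hε' : ε i0 = ε i1 := hε
    rw [← Finset.prod_subset (Finset.subset_univ {i0, i1})]
    · rw [Finset.prod_pair h01, ← hε', ← pow_add]
      obtain ⟨m, hm⟩ := h1
      rw [hm, ← two_mul, pow_mul]
      simp
    · intro x _ hx
      simp only [Finset.mem_insert, Finset.mem_singleton, not_or] at hx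
      obtain ⟨m, hm⟩ := h2 x hx.1 hx.2
      rw [hm, ← two_mul, pow_mul]
      simp

/-- transfer of exponents -/
noncomputable def fT (β : Fin n →₀ ℕ) : Fin n →₀ ℕ :=
  Finsupp.equivFunOnFinite.symm
    (fun i => if i = ℓ then 0 else if i = i0 ∨ i = i1 then 2 * β i + β ℓ else 2 * β i)

/-- inverse transfer of exponents -/
noncomputable def gT (α : Fin n →₀ ℕ) : Fin n →₀ ℕ :=
  Finsupp.equivFunOnFinite.symm (fun i => if i = ℓ then α i0 % 2 else α i / 2)

theorem fT_apply (β : Fin n →₀ ℕ) (i : Fin n) : fT i0 i1 ℓ β i =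
    if i = ℓ then 0 else if i = i0 ∨ i = i1 then 2 * β i + β ℓ else 2 * β i := rfl

theorem gT_apply (α : Fin n →₀ ℕ) (i : Fin n) : gT i0 ℓ α i =
    if i = ℓ then α i0 % 2 else α i / 2 := rfl

variable {i0 i1 ℓ}

theorem degree_fT (h01 : i0 ≠ i1) (h0 : i0 ≠ ℓ) (h1 : i1 ≠ ℓ) (β : Fin n →₀ ℕ) :
    (fT i0 i1 ℓ β).degree = 2 * β.degree := by
  classical
  have hp : ∀ i, fT i0 i1 ℓ β i + (if i = ℓ then 2 * β ℓ else 0) =
      2 * β i + ((if i = i0 then β ℓ else 0) + (if i = i1 then β ℓ else 0)) := by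
    intro i
    rw [fT_apply]
    by_cases ha : i = ℓ
    · subst ha
      simp [Ne.symm h0, Ne.symm h1]
    · by_cases hb : i = i0
      · subst hb
        simp [ha, h01]
      · by_cases hc : i = i1
        · subst hc
          simp [ha, hb]
        · simp [ha, hb, hc]
  have hs : ∑ i, (fT i0 i1 ℓ β i + (if i = ℓ then 2 * β ℓ else 0)) =
      ∑ i, (2 * β i + ((if i = i0 then β ℓ else 0) + (if i = i1 then β ℓ else 0))) :=
    Finset.sum_congr rfl fun i _ => hp i
  simp only [Finset.sum_add_distrib, Finset.sum_ite_eq', Finset.mem_univ, if_true] at hs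
  rw [Finsupp.degree_eq_sum, Finsupp.degree_eq_sum, Finset.mul_sum]
  omega

theorem fT_mem (h01 : i0 ≠ i1) (h0 : i0 ≠ ℓ) (h1 : i1 ≠ ℓ) {β : Fin n →₀ ℕ} {j : ℕ}
    (h : β ∈ T (adm (⊥ : Subgroup (Fin n → ℤˣ))) ℓ j) : fT i0 i1 ℓ β ∈ T (adm (S1 i0 i1)) ℓ (2 * j) := by
  refine ⟨by rw [degree_fT h01 h0 h1, h.1], ?_, by rw [fT_apply]; simp⟩
  rw [mem_adm_S1 _ _ h01]
  constructor
  · rw [fT_apply, fT_apply]
    simp only [h0, h1, if_false, true_or, or_true, if_true]
    exact ⟨β i0 + β i1 + β ℓ, by ring⟩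
  · intro i hi0 hi1
    rw [fT_apply]
    by_cases ha : i = ℓ
    · simp [ha]
    · simp [ha, hi0, hi1]

theorem gT_fT (h0 : i0 ≠ ℓ) {β : Fin n →₀ ℕ} (h : β ℓ ≤ 1) :
    gT i0 ℓ (fT i0 i1 ℓ β) = β := by
  ext i
  rw [gT_apply]
  by_cases ha : i = ℓ
  · subst ha
    rw [if_pos rfl, fT_apply]
    simp only [h0, if_false, true_or, if_true]
    omega
  · rw [if_neg ha, fT_apply]
    rw [if_neg ha]
    split_ifs <;> omega

theorem fT_gT (h01 : i0 ≠ i1) (h0 : i0 ≠ ℓ) (h1 : i1 ≠ ℓ) {α : Fin n →₀ ℕ}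
    (h : α ∈ adm (S1 i0 i1)) (hℓ : α ℓ ≤ 1) : fT i0 i1 ℓ (gT i0 ℓ α) = α := by
  rw [mem_adm_S1 _ _ h01] at h
  obtain ⟨hs, he⟩ := h
  ext i
  rw [fT_apply]
  by_cases ha : i = ℓ
  · subst ha
    rw [if_pos rfl]
    obtain ⟨m, hm⟩ := he i (Ne.symm h0) (Ne.symm h1)
    omega
  · rw [if_neg ha, gT_apply, gT_apply, if_neg ha, if_pos rfl]
    by_cases hb : i = i0
    · subst hb
      simp only [true_or, if_true]
      omega
    · by_cases hc : i = i1
      · subst hc
        simp only [or_true, if_true]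
        obtain ⟨m, hm⟩ := hs
        omega
      · simp only [hb, hc, or_self, if_false]
        obtain ⟨m, hm⟩ := he i hb hc
        omega

theorem gT_mem (h01 : i0 ≠ i1) (h0 : i0 ≠ ℓ) (h1 : i1 ≠ ℓ) {α : Fin n →₀ ℕ} {j : ℕ}
    (h : α ∈ T (adm (S1 i0 i1)) ℓ (2 * j)) : gT i0 ℓ α ∈ T (adm (⊥ : Subgroup (Fin n → ℤˣ))) ℓ j := by
  refine ⟨?_, ?_, ?_⟩
  · have h2 := degree_fT h01 h0 h1 (gT i0 ℓ α)
    rw [fT_gT h01 h0 h1 h.2.1 h.2.2, h.1] at h2
    omega
  · intro ε hε
    rw [Subgroup.mem_bot] at hε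
    subst hε
    simp
  · rw [gT_apply, if_pos rfl]
    omega

theorem card_T_even (h01 : i0 ≠ i1) (h0 : i0 ≠ ℓ) (h1 : i1 ≠ ℓ) (j : ℕ) :
    Nat.card (T (adm (S1 i0 i1)) ℓ (2 * j)) = Nat.card (T (adm (⊥ : Subgroup (Fin n → ℤˣ))) ℓ j) := by
  refine Nat.card_congr ⟨fun α => ⟨_, gT_mem h01 h0 h1 α.2⟩, fun β => ⟨_, fT_mem h01 h0 h1 β.2⟩, ?_, ?_⟩
  · rintro ⟨α, hα⟩
    exact Subtype.ext (fT_gT h01 h0 h1 hα.2.1 hα.2.2)
  · rintro ⟨β, hβ⟩
    exact Subtype.ext (gT_fT h0 hβ.2.2)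

theorem card_T_odd (h01 : i0 ≠ i1) (h0 : i0 ≠ ℓ) (h1 : i1 ≠ ℓ) {k : ℕ} (hk : Odd k) :
    Nat.card (T (adm (S1 i0 i1)) ℓ k) = 0 := by
  have : IsEmpty (T (adm (S1 i0 i1)) ℓ k) := by
    constructor
    rintro ⟨α, hα⟩
    have h2 := degree_fT h01 h0 h1 (gT i0 ℓ α)
    rw [fT_gT h01 h0 h1 hα.2.1 hα.2.2, hα.1] at h2
    obtain ⟨m, hm⟩ := hk
    omega
  simp

end count

theorem signGroup_bot : signGroup (⊥ : Subgroup (Fin n → ℤˣ)) = ⊥ := by
  rw [eq_bot_iff]
  rintro γ ⟨ε, hε, h⟩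
  rw [Subgroup.mem_bot] at hε
  subst hε
  rw [Subgroup.mem_bot]
  ext x i
  simp [h]

theorem finite_bot {n : ℕ} : Module.Finite ℝ (⊥ : Submodule ℝ (E n → ℝ)) := inferInstance

/-- isospectrality -/
theorem isospectral {i0 i1 ℓ : Fin n} (h01 : i0 ≠ i1) (h0 : i0 ≠ ℓ) (h1 : i1 ≠ ℓ) (σ : ℝ) :
    Module.Finite ℝ (steklovSpace n 1 (signGroup (S1 i0 i1)) σ) ∧
    Module.Finite ℝ (steklovSpace n (1 / 2) ⊥ σ) ∧
    Module.finrank ℝ (steklovSpace n 1 (signGroup (S1 i0 i1)) σ) =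
      Module.finrank ℝ (steklovSpace n (1 / 2) ⊥ σ) := by
  have hn : 0 < n := Fin.pos ℓ
  by_cases hk : ∃ k : ℕ, σ * 1 = k
  · obtain ⟨k, hk⟩ := hk
    obtain ⟨a1, a2⟩ := finrank_steklov (S := S1 i0 i1) one_pos hk ℓ
    rcases Nat.even_or_odd' k with ⟨j, rfl | rfl⟩
    · have hk2 : σ * (1 / 2) = j := by
        push_cast at hk
        linarith
      obtain ⟨b1, b2⟩ := finrank_steklov (S := (⊥ : Subgroup (Fin n → ℤˣ))) (by norm_num : (0 : ℝ) < 1 / 2) hk2 ℓ
      rw [signGroup_bot] at b1 b2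
      exact ⟨a1, b1, by rw [a2, b2, card_T_even h01 h0 h1]⟩
    · have hne : ∀ m : ℕ, σ * (1 / 2) ≠ m := by
        intro m hm
        push_cast at hk
        have h2 : (2 * j + 1 : ℝ) = 2 * m := by linarith
        have h3 : 2 * j + 1 = 2 * m := by exact_mod_cast h2
        omega
      have hbot := trivial_of_ne hn (S := (⊥ : Subgroup (Fin n → ℤˣ))) (by norm_num : (0 : ℝ) < 1 / 2) hne
      rw [signGroup_bot] at hbot
      rw [hbot]
      refine ⟨a1, inferInstance, ?_⟩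
      rw [a2, card_T_odd h01 h0 h1 ⟨j, rfl⟩]
      simp
  · push Not at hk
    have hne : ∀ m : ℕ, σ * (1 / 2) ≠ m := by
      intro m hm
      apply hk (2 * m)
      push_cast
      linarith
    have hbot := trivial_of_ne hn (S := (⊥ : Subgroup (Fin n → ℤˣ))) (by norm_num : (0 : ℝ) < 1 / 2) hne
    rw [signGroup_bot] at hbot
    rw [hbot, trivial_of_ne hn one_pos hk]
    exact ⟨inferInstance, inferInstance, rfl⟩

/-- a singular boundary point -/
theorem singular {i0 i1 ℓ : Fin n} (h0 : i0 ≠ ℓ) (h1 : i1 ≠ ℓ) :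
    ∃ x ∈ sphere (0 : E n) 1, ∃ γ ∈ signGroup (S1 i0 i1), γ ≠ 1 ∧ γ x = x := by
  classical
  refine ⟨EuclideanSpace.single i0 1, by simp, signIso (fun i => if i = ℓ then -1 else 1),
    signIso_mem ?_, ?_, ?_⟩
  · show (if i0 = ℓ then (-1 : ℤˣ) else 1) = if i1 = ℓ then -1 else 1
    simp [h0, h1]
  · intro h
    have h2 := congrArg (fun γ : E n ≃ₗᵢ[ℝ] E n => γ (EuclideanSpace.single ℓ 1) ℓ) h
    simp only [signIso_apply] at h2
    simp at h2
    norm_num at h2
  · ext i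
    rw [signIso_apply]
    by_cases hi : i = ℓ
    · subst hi
      simp [Ne.symm h0]
    · simp [hi]

end Pool.Agent.W545.Orb
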