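import Mathlib
set_option autoImplicit false
open Metric Set Filter Topology MvPolynomial
open scoped ContDiff

namespace Pool.Agent.W545.Orb

/-- `u` is homogeneous of degree `c` on the ball of radius `R`. -/
def Hom {V : Type*} [NormedAddCommGroup V] [NormedSpace ℝ V] (R c : ℝ) (u : V → ℝ) : Prop :=
  ∀ x ∈ ball (0 : V) R, ∀ t ∈ Ioc (0 : ℝ) 1, u (t • x) = t ^ c * u x

section
variable {V : Type*} [NormedAddCommGroup V] [NormedSpace ℝ V]

theorem smul_mem {R t : ℝ} {x : V} (hx : x ∈ ball (0 : V) R) (ht : t ∈ Icc (0 : ℝ) 1) :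
    t • x ∈ ball (0 : V) R := by
  rw [mem_ball_zero_iff] at hx ⊢
  rw [norm_smul, Real.norm_of_nonneg ht.1]
  nlinarith [norm_nonneg x, ht.2]

theorem hom_of_euler {R c : ℝ} {u : V → ℝ} (hu : ContDiffOn ℝ ∞ u (ball 0 R))
    (he : ∀ x ∈ ball (0 : V) R, fderiv ℝ u x x = c * u x) : Hom R c u := by
  intro x hx t ht
  have hd : ∀ s ∈ Icc t 1, HasDerivAt (fun s : ℝ => s ^ (-c) * u (s • x)) 0 s := by
    intro s hs
    have hs0 : 0 < s := lt_of_lt_of_le ht.1 hs.1
    have hsx : s • x ∈ ball (0 : V) R := smul_mem hx ⟨hs0.le, hs.2⟩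
    have h1 : HasFDerivAt u (fderiv ℝ u (s • x)) (s • x) :=
      ((hu.contDiffAt (isOpen_ball.mem_nhds hsx)).differentiableAt (by simp)).hasFDerivAt
    have h2 : HasDerivAt (fun s : ℝ => s • x) x s := by
      simpa using (hasDerivAt_id s).smul_const x
    have h3 : HasDerivAt (fun s : ℝ => u (s • x)) (fderiv ℝ u (s • x) x) s :=
      h1.comp_hasDerivAt s h2
    have h4 : HasDerivAt (fun s : ℝ => s ^ (-c)) (-c * s ^ (-c - 1)) s :=
      Real.hasDerivAt_rpow_const (Or.inl hs0.ne')
    have h5 : HasDerivAt (fun s : ℝ => s ^ (-c) * u (s • x))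
        (-c * s ^ (-c - 1) * u (s • x) + s ^ (-c) * (fderiv ℝ u (s • x)) x) s := h4.mul h3
    have h6 := he _ hsx
    rw [map_smul, smul_eq_mul] at h6
    have h7 : fderiv ℝ u (s • x) x = c * u (s • x) / s := by
      field_simp
      linarith
    have h8 : s ^ (-c) = s ^ (-c - 1) * s := by
      rw [← Real.rpow_add_one hs0.ne']
      congr 1
      ring
    have h9 : -c * s ^ (-c - 1) * u (s • x) + s ^ (-c) * (fderiv ℝ u (s • x)) x = 0 := by
      rw [h7, h8]
      field_simp
      ring
    rwa [h9] at h5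
  have hconst : (fun s : ℝ => s ^ (-c) * u (s • x)) 1 = (fun s : ℝ => s ^ (-c) * u (s • x)) t := by
    have := constant_of_has_deriv_right_zero (f := fun s : ℝ => s ^ (-c) * u (s • x)) (a := t) (b := 1)
      (fun s hs => (hd s hs).continuousAt.continuousWithinAt)
      (fun s hs => (hd s ⟨hs.1, hs.2.le⟩).hasDerivWithinAt)
    exact this 1 ⟨ht.2, le_rfl⟩
  simp only [Real.one_rpow, one_smul, one_mul] at hconst
  rw [hconst, ← mul_assoc, ← Real.rpow_add ht.1]
  simp

theorem hom_neg {R c : ℝ} {u : V → ℝ} (hR : 0 < R) (hu : ContinuousOn u (ball 0 R)) (hc : c < 0)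
    (h : Hom R c u) : ∀ x ∈ ball (0 : V) R, u x = 0 := by
  intro x hx
  have h0 : (0 : V) ∈ ball (0 : V) R := mem_ball_self hR
  have h1 : Tendsto (fun t : ℝ => u (t • x)) (𝓝[>] 0) (𝓝 (u 0)) := by
    have h2 : ContinuousAt u 0 := hu.continuousAt (isOpen_ball.mem_nhds h0)
    have h3 : Tendsto (fun t : ℝ => t • x) (𝓝[>] 0) (𝓝 (0 : V)) := by
      apply Tendsto.mono_left _ nhdsWithin_le_nhds
      have : Continuous fun t : ℝ => t • x := by fun_prop
      simpa using this.tendsto 0
    exact h2.tendsto.comp h3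
  have h4 : Tendsto (fun t : ℝ => t ^ (-c)) (𝓝[>] 0) (𝓝 0) := by
    apply Tendsto.mono_left _ nhdsWithin_le_nhds
    have := (Real.continuousAt_rpow_const 0 (-c) (Or.inr (by linarith))).tendsto
    rwa [Real.zero_rpow (by linarith)] at this
  have h5 := h4.mul h1
  rw [zero_mul] at h5
  have h6 : (fun t : ℝ => t ^ (-c) * u (t • x)) =ᶠ[𝓝[>] 0] fun _ => u x := by
    filter_upwards [Ioc_mem_nhdsGT one_pos] with t ht
    rw [h x hx t ht, ← mul_assoc, ← Real.rpow_add ht.1]
    simp
  have h7 := h5.congr' h6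
  exact tendsto_nhds_unique tendsto_const_nhds h7

theorem hom_zero {R : ℝ} {u : V → ℝ} (hR : 0 < R) (hu : ContinuousOn u (ball 0 R))
    (h : Hom R 0 u) : ∀ x ∈ ball (0 : V) R, u x = u 0 := by
  intro x hx
  have h0 : (0 : V) ∈ ball (0 : V) R := mem_ball_self hR
  have h1 : Tendsto (fun t : ℝ => u (t • x)) (𝓝[>] 0) (𝓝 (u 0)) := by
    have h2 : ContinuousAt u 0 := hu.continuousAt (isOpen_ball.mem_nhds h0)
    have h3 : Tendsto (fun t : ℝ => t • x) (𝓝[>] 0) (𝓝 (0 : V)) := by
      apply Tendsto.mono_left _ nhdsWithin_le_nhds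
      have : Continuous fun t : ℝ => t • x := by fun_prop
      simpa using this.tendsto 0
    exact h2.tendsto.comp h3
  have h6 : (fun t : ℝ => u (t • x)) =ᶠ[𝓝[>] 0] fun _ => u x := by
    filter_upwards [Ioc_mem_nhdsGT one_pos] with t ht
    rw [h x hx t ht]
    simp
  exact tendsto_nhds_unique tendsto_const_nhds (h1.congr' h6)

theorem hom_deriv {R c : ℝ} {u : V → ℝ} (hu : ContDiffOn ℝ ∞ u (ball 0 R))
    (h : Hom R c u) (v : V) : Hom R (c - 1) (fun x => fderiv ℝ u x v) := by
  intro x hx t ht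
  have htx : t • x ∈ ball (0 : V) R := smul_mem hx ⟨ht.1.le, ht.2⟩
  have h1 : HasFDerivAt u (fderiv ℝ u (t • x)) (t • x) :=
    ((hu.contDiffAt (isOpen_ball.mem_nhds htx)).differentiableAt (by simp)).hasFDerivAt
  have h2 : HasFDerivAt u (fderiv ℝ u x) x :=
    ((hu.contDiffAt (isOpen_ball.mem_nhds hx)).differentiableAt (by simp)).hasFDerivAt
  have h3 : HasFDerivAt (fun y : V => u (t • y)) (t • fderiv ℝ u (t • x)) x := by
    have h4 : HasFDerivAt (fun y : V => t • y) (t • ContinuousLinearMap.id ℝ V) x :=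
      (hasFDerivAt_id x).const_smul t
    have h5 : HasFDerivAt (fun y : V => u (t • y))
        ((fderiv ℝ u (t • x)).comp (t • ContinuousLinearMap.id ℝ V)) x := h1.comp x h4
    have h6 : (fderiv ℝ u (t • x)).comp (t • ContinuousLinearMap.id ℝ V)
        = t • fderiv ℝ u (t • x) := by
      ext y
      simp
    rwa [h6] at h5
  have h6 : HasFDerivAt (fun y : V => u (t • y)) (t ^ c • fderiv ℝ u x) x := by
    refine (h2.const_mul (t ^ c)).congr_of_eventuallyEq ?_
    filter_upwards [isOpen_ball.mem_nhds hx] with y hy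
    exact h y hy t ht
  have h7 := h3.unique h6
  have h8 : t * fderiv ℝ u (t • x) v = t ^ c * fderiv ℝ u x v := by
    have := congrArg (fun L : V →L[ℝ] ℝ => L v) h7
    simpa using this
  show fderiv ℝ u (t • x) v = t ^ (c - 1) * fderiv ℝ u x v
  rw [Real.rpow_sub_one ht.1.ne']
  have := ht.1.ne'
  field_simp
  linarith

end

/-- a smooth homogeneous function is a polynomial -/
theorem poly_of_hom {n : ℕ} {R : ℝ} (hR : 0 < R) (m : ℕ) : ∀ (c : ℝ), c < m →
    ∀ u : EuclideanSpace ℝ (Fin n) → ℝ, ContDiffOn ℝ ∞ u (ball 0 R) →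
    (∀ x ∈ ball (0 : EuclideanSpace ℝ (Fin n)) R, fderiv ℝ u x x = c * u x) →
    ∃ p : MvPolynomial (Fin n) ℝ, (∀ x ∈ ball (0 : EuclideanSpace ℝ (Fin n)) R,
      u x = eval (fun i => x i) p) ∧ (∀ k : ℕ, c = k → p.IsHomogeneous k) ∧
      ((∀ k : ℕ, c ≠ k) → p = 0) := by
  induction m with
  | zero =>
    intro c hc u hu he
    have hc' : c < 0 := by simpa using hc
    have h := hom_neg hR hu.continuousOn hc' (hom_of_euler hu he)
    refine ⟨0, fun x hx => by rw [h x hx]; simp, fun k hk => isHomogeneous_zero _ _ _, fun _ => rfl⟩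
  | succ m ih =>
    intro c hc u hu he
    have hhom := hom_of_euler hu he
    rcases lt_trichotomy c 0 with h0 | h0 | h0
    · have h := hom_neg hR hu.continuousOn h0 hhom
      exact ⟨0, fun x hx => by rw [h x hx]; simp, fun k hk => isHomogeneous_zero _ _ _, fun _ => rfl⟩
    · subst h0
      have h := hom_zero hR hu.continuousOn hhom
      refine ⟨C (u 0), fun x hx => by rw [h x hx]; simp, fun k hk => ?_, fun h => ?_⟩
      · have : k = 0 := by exact_mod_cast hk.symm
        subst this
        exact isHomogeneous_C _ _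
      · exact absurd (by simp) (h 0)
    · -- derivatives
      have hcd : ∀ v : EuclideanSpace ℝ (Fin n),
          ContDiffOn ℝ ∞ (fun x => fderiv ℝ u x v) (ball 0 R) := fun v =>
        (hu.fderiv_of_isOpen isOpen_ball (by simp)).clm_apply contDiffOn_const
      have hed : ∀ v : EuclideanSpace ℝ (Fin n), ∀ x ∈ ball (0 : EuclideanSpace ℝ (Fin n)) R,
          fderiv ℝ (fun x => fderiv ℝ u x v) x x = (c - 1) * fderiv ℝ u x v := by
        intro v x hx
        have h1 := hom_deriv hu hhom v x hx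
        have hd : HasFDerivAt (fun x => fderiv ℝ u x v) (fderiv ℝ (fun x => fderiv ℝ u x v) x) x :=
          (((hcd v).contDiffAt (isOpen_ball.mem_nhds hx)).differentiableAt (by simp)).hasFDerivAt
        have hline : HasDerivAt (fun t : ℝ => t • x) x 1 := by
          simpa using (hasDerivAt_id (1 : ℝ)).smul_const x
        have hd2 : HasDerivAt (fun t : ℝ => fderiv ℝ u (t • x) v)
            (fderiv ℝ (fun x => fderiv ℝ u x v) x x) 1 := by
          have hd' : HasFDerivAt (fun x => fderiv ℝ u x v) (fderiv ℝ (fun x => fderiv ℝ u x v) x)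
              ((1 : ℝ) • x) := by rwa [one_smul]
          exact hd'.comp_hasDerivAt (1 : ℝ) hline
        have hd3 : HasDerivAt (fun t : ℝ => t ^ (c - 1) * fderiv ℝ u x v)
            ((c - 1) * fderiv ℝ u x v) 1 := by
          have := (Real.hasDerivAt_rpow_const (x := 1) (p := c - 1) (Or.inl one_ne_zero)).mul_const
            (fderiv ℝ u x v)
          simpa using this
        have hd4 := hd2.hasDerivWithinAt (s := Iic (1 : ℝ))
        have hd5 := hd3.hasDerivWithinAt (s := Iic (1 : ℝ))
        have hd6 : HasDerivWithinAt (fun t : ℝ => fderiv ℝ u (t • x) v)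
            ((c - 1) * fderiv ℝ u x v) (Iic 1) 1 := by
          refine hd5.congr_of_eventuallyEq ?_ ?_
          · have : Ioc (0 : ℝ) 1 ∈ 𝓝[≤] 1 := Ioc_mem_nhdsLE one_pos
            filter_upwards [this] with t ht
            exact h1 t ht
          · have := h1 1 ⟨one_pos, le_rfl⟩
            simpa using this
        have hU : UniqueDiffWithinAt ℝ (Iic (1 : ℝ)) 1 := uniqueDiffWithinAt_Iic 1
        exact hU.eq_deriv _ hd4 hd6
      have hc1 : c - 1 < m := by
        push_cast at hc
        linarith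
      choose p hp1 hp2 hp3 using fun i : Fin n =>
        ih (c - 1) hc1 _ (hcd (EuclideanSpace.single i (1 : ℝ))) (hed (EuclideanSpace.single i (1 : ℝ)))
      refine ⟨∑ i, C (1 / c) * (X i * p i), ?_, ?_, ?_⟩
      · intro x hx
        have h1 : u x = (1 / c) * fderiv ℝ u x x := by
          rw [he x hx]
          field_simp
        have h2 : fderiv ℝ u x x = ∑ i, x i * fderiv ℝ u x (EuclideanSpace.single i (1 : ℝ)) := by
          have h3 : x = ∑ i, x i • EuclideanSpace.single i (1 : ℝ) := by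
            have := (EuclideanSpace.basisFun (Fin n) ℝ).sum_repr x
            simpa using this.symm
          conv_lhs => rw [h3]
          rw [map_sum]
          simp [← h3]
        rw [h1, h2, map_sum, Finset.mul_sum]
        refine Finset.sum_congr rfl fun i _ => ?_
        rw [map_mul, map_mul, eval_C, eval_X, ← hp1 i x hx]
      · intro k hk
        have hk0 : k ≠ 0 := by
          rintro rfl
          simp at hk
          linarith
        obtain ⟨j, rfl⟩ := Nat.exists_eq_succ_of_ne_zero hk0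
        apply IsHomogeneous.sum
        intro i _
        apply IsHomogeneous.C_mul
        have h1 := hp2 i j (by rw [hk]; push_cast; ring)
        have h2 := (isHomogeneous_X ℝ i).mul h1
        rwa [add_comm] at h2
      · intro h
        have h1 : ∀ i, p i = 0 := fun i => hp3 i fun k hk => h (k + 1) (by push_cast; linarith)
        simp [h1]

end Pool.Agent.W545.Orb
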