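import Mathlib
set_option autoImplicit false
open MvPolynomial Finsupp

namespace Pool.Agent.W545.Orb

variable {n : ℕ}

/-- the algebraic Laplacian -/
noncomputable def lap (p : MvPolynomial (Fin n) ℝ) : MvPolynomial (Fin n) ℝ :=
  ∑ i, pderiv i (pderiv i p)

theorem coeff_lap (p : MvPolynomial (Fin n) ℝ) (γ : Fin n →₀ ℕ) :
    coeff γ (lap p) = ∑ i, ((γ i : ℝ) + 2) * (γ i + 1) * coeff (γ + single i 2) p := by
  rw [lap, coeff_sum]
  refine Finset.sum_congr rfl fun i _ => ?_
  rw [coeff_pderiv, coeff_pderiv, add_assoc, ← single_add]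
  simp
  ring

/-- harmonic polynomials, homogeneous of degree `k`, with exponents in `A` -/
noncomputable def W (A : Set (Fin n →₀ ℕ)) (k : ℕ) : Submodule ℝ (MvPolynomial (Fin n) ℝ) where
  carrier := {p | p.IsHomogeneous k ∧ (∀ α, coeff α p ≠ 0 → α ∈ A) ∧ lap p = 0}
  add_mem' := by
    rintro p q ⟨h1, h2, h3⟩ ⟨h4, h5, h6⟩
    refine ⟨h1.add h4, fun α hα => ?_, ?_⟩
    · by_contra hA
      apply hα
      rw [coeff_add]
      have e1 : coeff α p = 0 := by
        by_contra h; exact hA (h2 α h)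
      have e2 : coeff α q = 0 := by
        by_contra h; exact hA (h5 α h)
      rw [e1, e2, add_zero]
    · simp only [lap, map_add, Finset.sum_add_distrib] at *
      rw [h3, h6, add_zero]
  zero_mem' := by
    refine ⟨isHomogeneous_zero _ _ _, fun α hα => ?_, ?_⟩
    · simp at hα
    · simp [lap]
  smul_mem' := by
    rintro c p ⟨h1, h2, h3⟩
    refine ⟨?_, fun α hα => ?_, ?_⟩
    · rw [smul_eq_C_mul]
      exact h1.C_mul c
    · apply h2
      intro h
      apply hα
      rw [coeff_smul, h, smul_zero]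
    · simp only [lap, Derivation.map_smul, ← Finset.smul_sum] at *
      rw [h3, smul_zero]

/-- the exponents which carry the Cauchy data -/
def T (A : Set (Fin n →₀ ℕ)) (ℓ : Fin n) (k : ℕ) : Set (Fin n →₀ ℕ) :=
  {α | α.degree = k ∧ α ∈ A ∧ α ℓ ≤ 1}

/-- the solution of the recursion with Cauchy data `b` -/
noncomputable def sol (ℓ : Fin n) (b : (Fin n →₀ ℕ) → ℝ) (α : Fin n →₀ ℕ) : ℝ :=
  if _h : α ℓ ≤ 1 then b α else
    -(∑ i : {i // i ≠ ℓ}, ((α i : ℝ) + 2) * (α i + 1) *
      sol ℓ b (α - single ℓ 2 + single (i : Fin n) 2)) / ((α ℓ : ℝ) * (α ℓ - 1))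
termination_by α ℓ
decreasing_by
  have := i.2
  simp [Finsupp.single_apply, this]
  omega

theorem sol_of_le {ℓ : Fin n} {b : (Fin n →₀ ℕ) → ℝ} {α : Fin n →₀ ℕ} (h : α ℓ ≤ 1) :
    sol ℓ b α = b α := by
  rw [sol, dif_pos h]

theorem sol_rec (ℓ : Fin n) (b : (Fin n →₀ ℕ) → ℝ) (γ : Fin n →₀ ℕ) :
    ∑ i, ((γ i : ℝ) + 2) * (γ i + 1) * sol ℓ b (γ + single i 2) = 0 := by
  classical
  have h1 : ∑ i, ((γ i : ℝ) + 2) * (γ i + 1) * sol ℓ b (γ + single i 2)
      = ((γ ℓ : ℝ) + 2) * (γ ℓ + 1) * sol ℓ b (γ + single ℓ 2)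
        + ∑ i : {i // i ≠ ℓ}, ((γ i : ℝ) + 2) * (γ i + 1) * sol ℓ b (γ + single (i : Fin n) 2) := by
    rw [← Finset.add_sum_erase _ _ (Finset.mem_univ ℓ)]
    congr 1
    rw [← Finset.sum_subtype (s := Finset.univ.erase ℓ) (p := fun i => i ≠ ℓ)
      (f := fun i : Fin n => ((γ i : ℝ) + 2) * (γ i + 1) * sol ℓ b (γ + single i 2))]
    intro x
    simp
  rw [h1]
  have h2 : sol ℓ b (γ + single ℓ 2) =
      -(∑ i : {i // i ≠ ℓ}, ((γ i : ℝ) + 2) * (γ i + 1) * sol ℓ b (γ + single (i : Fin n) 2))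
        / (((γ ℓ : ℝ) + 2) * (γ ℓ + 1)) := by
    rw [sol, dif_neg (by simp)]
    congr 1
    · congr 1
      refine Finset.sum_congr rfl fun i _ => ?_
      have hi : (i : Fin n) ≠ ℓ := i.2
      have e1 : (γ + single ℓ 2 : Fin n →₀ ℕ) (i : Fin n) = γ i := by
        simp [Finsupp.single_apply, hi.symm]
      have e2 : γ + single ℓ 2 - single ℓ 2 = γ := add_tsub_cancel_right _ _
      rw [e1, e2]
    · have e3 : (((γ + single ℓ 2 : Fin n →₀ ℕ) ℓ : ℕ) : ℝ) = (γ ℓ : ℝ) + 2 := by simp
      rw [e3]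
      ring
  rw [h2]
  have h3 : (((γ ℓ : ℝ) + 2) * (γ ℓ + 1)) ≠ 0 := by positivity
  field_simp
  ring

theorem sol_supp {ℓ : Fin n} {b : (Fin n →₀ ℕ) → ℝ} {A : Set (Fin n →₀ ℕ)} {k : ℕ}
    (hA : ∀ α i, α + single i 2 ∈ A ↔ α ∈ A) (hb : ∀ α, b α ≠ 0 → α.degree = k ∧ α ∈ A) :
    ∀ (m : ℕ) (α : Fin n →₀ ℕ), α ℓ = m → sol ℓ b α ≠ 0 → α.degree = k ∧ α ∈ A := by
  intro m
  induction m using Nat.strong_induction_on with
  | _ m ih =>
    intro α hα hs
    by_cases h : α ℓ ≤ 1
    · rw [sol_of_le h] at hs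
      exact hb α hs
    · rw [sol, dif_neg h] at hs
      have h1 : ∑ i : {i // i ≠ ℓ}, ((α i : ℝ) + 2) * (α i + 1) *
          sol ℓ b (α - single ℓ 2 + single (i : Fin n) 2) ≠ 0 := by
        intro h0
        apply hs
        rw [h0]
        simp
      obtain ⟨i, -, hi⟩ := Finset.exists_ne_zero_of_sum_ne_zero h1
      have hi' : sol ℓ b (α - single ℓ 2 + single (i : Fin n) 2) ≠ 0 := right_ne_zero_of_mul hi
      have hne : (i : Fin n) ≠ ℓ := i.2
      have hle : single ℓ 2 ≤ α := by
        rw [Finsupp.single_le_iff]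
        omega
      have hval : (α - single ℓ 2 + single (i : Fin n) 2 : Fin n →₀ ℕ) ℓ = m - 2 := by
        simp [Finsupp.single_apply, hne, hα]
      have h2 := ih (m - 2) (by omega) _ hval hi'
      have h3 : α - single ℓ 2 + single ℓ 2 = α := tsub_add_cancel_of_le hle
      constructor
      · have h4 := h2.1
        rw [map_add, degree_single] at h4
        rw [← h3, map_add, degree_single]
        exact h4
      · have h4 := (hA _ _).1 h2.2
        rw [← h3]
        exact (hA _ _).2 h4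

theorem finite_T (A : Set (Fin n →₀ ℕ)) (ℓ : Fin n) (k : ℕ) : (T A ℓ k).Finite := by
  classical
  refine (Finset.finite_toSet (Finset.univ.finsuppAntidiag k)).subset ?_
  intro α hα
  simp only [Finset.mem_coe, Finset.mem_finsuppAntidiag]
  refine ⟨?_, Finset.subset_univ _⟩
  rw [← hα.1, degree_eq_sum]

/-- The space of harmonic polynomials has the dimension of its Cauchy data. -/
theorem finrank_W {A : Set (Fin n →₀ ℕ)} (hA : ∀ α i, α + single i 2 ∈ A ↔ α ∈ A) (ℓ : Fin n)
    (k : ℕ) : Module.Finite ℝ (W A k) ∧ Module.finrank ℝ (W A k) = Nat.card (T A ℓ k) := by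
  classical
  have : Finite (T A ℓ k) := finite_T A ℓ k
  let Φ : W A k →ₗ[ℝ] (T A ℓ k → ℝ) :=
    { toFun := fun p α => coeff α.1 p.1
      map_add' := fun p q => by funext α; simp
      map_smul' := fun c p => by funext α; simp }
  have hinj : Function.Injective Φ := by
    rw [← LinearMap.ker_eq_bot, LinearMap.ker_eq_bot']
    rintro ⟨p, hp1, hp2, hp3⟩ h0
    have h1 : ∀ (m : ℕ) (α : Fin n →₀ ℕ), α ℓ = m → coeff α p = 0 := by
      intro m
      induction m using Nat.strong_induction_on with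
      | _ m ih =>
        intro α hα
        by_cases h : α ℓ ≤ 1
        · by_contra hne
          have hdeg : α.degree = k := by
            by_contra hd
            exact hne (hp1.coeff_eq_zero hd)
          have := congrFun h0 ⟨α, hdeg, hp2 α hne, h⟩
          exact hne this
        · have hle : single ℓ 2 ≤ α := by
            rw [Finsupp.single_le_iff]
            omega
          have h3 : α - single ℓ 2 + single ℓ 2 = α := tsub_add_cancel_of_le hle
          have h4 := coeff_lap p (α - single ℓ 2)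
          rw [hp3, coeff_zero, ← Finset.add_sum_erase _ _ (Finset.mem_univ ℓ)] at h4
          rw [Finset.sum_eq_zero, add_zero, h3] at h4
          · have h5 : (((α - single ℓ 2 : Fin n →₀ ℕ) ℓ : ℕ) : ℝ) + 2 ≠ 0 := by positivity
            have h6 : (((α - single ℓ 2 : Fin n →₀ ℕ) ℓ : ℕ) : ℝ) + 1 ≠ 0 := by positivity
            have h7 := h4.symm
            rcases mul_eq_zero.1 h7 with h8 | h8
            · exact absurd h8 (mul_ne_zero h5 h6)
            · exact h8
          · intro i hi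
            have hne : i ≠ ℓ := (Finset.mem_erase.1 hi).1
            have hval : (α - single ℓ 2 + single i 2 : Fin n →₀ ℕ) ℓ = m - 2 := by
              simp [Finsupp.single_apply, hne, hα]
            rw [ih (m - 2) (by omega) _ hval, mul_zero]
    have h2 : p = 0 := by
      ext α
      rw [h1 _ α rfl, coeff_zero]
    exact Subtype.ext h2
  have hsurj : Function.Surjective Φ := by
    intro g
    set b : (Fin n →₀ ℕ) → ℝ := fun α => if h : α ∈ T A ℓ k then g ⟨α, h⟩ else 0 with hb
    have hb' : ∀ α, b α ≠ 0 → α.degree = k ∧ α ∈ A := by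
      intro α hα
      by_cases h : α ∈ T A ℓ k
      · exact ⟨h.1, h.2.1⟩
      · exact absurd (by simp [hb, h]) hα
    have hs : ∀ α, sol ℓ b α ≠ 0 → α.degree = k ∧ α ∈ A := fun α => sol_supp hA hb' _ α rfl
    set p : MvPolynomial (Fin n) ℝ :=
      ∑ α ∈ (Finset.univ : Finset (Fin n)).finsuppAntidiag k, monomial α (sol ℓ b α) with hp
    have hpc : ∀ β, coeff β p = sol ℓ b β := by
      intro β
      rw [hp, coeff_sum]
      simp only [coeff_monomial]
      rw [Finset.sum_ite_eq']
      split_ifs with h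
      · rfl
      · by_contra hne
        apply h
        have := (hs β (Ne.symm hne)).1
        simp only [Finset.mem_finsuppAntidiag]
        refine ⟨?_, Finset.subset_univ _⟩
        rw [← this, degree_eq_sum]
    have hmem : p ∈ W A k := by
      refine ⟨?_, ?_, ?_⟩
      · intro β hβ
        rw [hpc] at hβ
        have := (hs β hβ).1
        rwa [degree_eq_weight_one] at this
      · intro β hβ
        rw [hpc] at hβ
        exact (hs β hβ).2
      · ext γ
        rw [coeff_lap, coeff_zero]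
        simp only [hpc]
        exact sol_rec ℓ b γ
    refine ⟨⟨p, hmem⟩, ?_⟩
    funext α
    show coeff α.1 p = g α
    rw [hpc, sol_of_le α.2.2.2]
    simp [hb]
  let e := LinearEquiv.ofBijective Φ ⟨hinj, hsurj⟩
  have := Fintype.ofFinite (T A ℓ k)
  refine ⟨Module.Finite.equiv e.symm, ?_⟩
  rw [e.finrank_eq, Module.finrank_fintype_fun_eq_card, Nat.card_eq_fintype_card]

end Pool.Agent.W545.Orb
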