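import Pool.Agent.W545.Orb.Defs
import Pool.Agent.W545.Orb.Euler
import Pool.Agent.W545.Orb.Hom
import Pool.Agent.W545.Orb.Poly
set_option autoImplicit false
open Metric Set Filter Topology MvPolynomial
open scoped ContDiff InnerProductSpace Laplacian

namespace Pool.Agent.W545.Orb

variable {n : ℕ}

/-- evaluation of a polynomial as a function on Euclidean space -/
noncomputable def ev (p : MvPolynomial (Fin n) ℝ) (x : E n) : ℝ := eval (fun i => x i) p

theorem contDiff_ev (p : MvPolynomial (Fin n) ℝ) : ContDiff ℝ ∞ (ev p) := by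
  induction p using MvPolynomial.induction_on with
  | C a =>
    have : ev (C a : MvPolynomial (Fin n) ℝ) = fun _ => a := by funext x; simp [ev]
    rw [this]
    exact contDiff_const
  | add p q hp hq =>
    have : ev (p + q) = fun x => ev p x + ev q x := by funext x; simp [ev]
    rw [this]
    exact hp.add hq
  | mul_X p i hp =>
    have : ev (p * X i) = fun x => ev p x * x i := by funext x; simp [ev]
    rw [this]
    refine hp.mul ?_
    exact (EuclideanSpace.proj i : E n →L[ℝ] ℝ).contDiff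

theorem fderiv_ev (p : MvPolynomial (Fin n) ℝ) (x : E n) (j : Fin n) :
    fderiv ℝ (ev p) x (EuclideanSpace.single j 1) = ev (pderiv j p) x := by
  induction p using MvPolynomial.induction_on with
  | C a =>
    have : ev (C a : MvPolynomial (Fin n) ℝ) = fun _ => a := by funext x; simp [ev]
    rw [this]
    simp [ev]
  | add p q hp hq =>
    have h1 : ev (p + q) = fun x => ev p x + ev q x := by funext x; simp [ev]
    have h2 : DifferentiableAt ℝ (ev p) x := (contDiff_ev p).contDiffAt.differentiableAt (by simp)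
    have h3 : DifferentiableAt ℝ (ev q) x := (contDiff_ev q).contDiffAt.differentiableAt (by simp)
    rw [h1, fderiv_fun_add h2 h3, add_apply, hp, hq]
    simp [ev]
  | mul_X p i hp =>
    have h1 : ev (p * X i) = fun x => ev p x * (EuclideanSpace.proj i : E n →L[ℝ] ℝ) x := by
      funext x; simp [ev]
    have h2 : DifferentiableAt ℝ (ev p) x := (contDiff_ev p).contDiffAt.differentiableAt (by simp)
    have h3 : DifferentiableAt ℝ (fun x => (EuclideanSpace.proj i : E n →L[ℝ] ℝ) x) x :=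
      (EuclideanSpace.proj i : E n →L[ℝ] ℝ).differentiableAt
    rw [h1, fderiv_fun_mul h2 h3]
    simp only [ContinuousLinearMap.fderiv, add_apply, smul_apply, hp, smul_eq_mul]
    rw [pderiv_mul, pderiv_X]
    by_cases hij : i = j
    · subst hij
      simp [ev]
      ring
    · simp [ev, hij]
      ring

theorem laplacian_ev (p : MvPolynomial (Fin n) ℝ) (x : E n) : Δ (ev p) x = ev (lap p) x := by
  rw [InnerProductSpace.laplacian_eq_iteratedFDeriv_orthonormalBasis _ (EuclideanSpace.basisFun (Fin n) ℝ)]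
  simp only [lap]
  have h0 : ev (∑ i, pderiv i (pderiv i p)) x = ∑ i, ev (pderiv i (pderiv i p)) x := by
    simp [ev]
  rw [h0]
  refine Finset.sum_congr rfl fun i _ => ?_
  rw [iteratedFDeriv_two_apply]
  simp only [Matrix.cons_val_zero, Matrix.cons_val_one, Matrix.cons_val_fin_one,
    EuclideanSpace.basisFun_apply]
  rw [← fderiv_ev]
  have h1 : ev (pderiv i p) = fun y => fderiv ℝ (ev p) y (EuclideanSpace.single i 1) := by
    funext y
    rw [fderiv_ev]
  have h2 : DifferentiableAt ℝ (fderiv ℝ (ev p)) x :=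
    ((contDiff_ev p).contDiffAt.fderiv_right (m := 1) (by norm_cast)).differentiableAt one_ne_zero
  rw [h1]
  have h3 := h2.hasFDerivAt.clm_apply
    (hasFDerivAt_const (EuclideanSpace.single i (1 : ℝ) : E n) x)
  rw [h3.fderiv]
  simp

theorem euler_ev {p : MvPolynomial (Fin n) ℝ} {k : ℕ} (hp : p.IsHomogeneous k) (x : E n) :
    fderiv ℝ (ev p) x x = k * ev p x := by
  have h1 : fderiv ℝ (ev p) x x = ∑ i, x i * fderiv ℝ (ev p) x (EuclideanSpace.single i (1 : ℝ)) := by
    have h3 : x = ∑ i, x i • EuclideanSpace.single i (1 : ℝ) := by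
      have := (EuclideanSpace.basisFun (Fin n) ℝ).sum_repr x
      simpa using this.symm
    conv_lhs => rw [h3]
    rw [map_sum]
    simp [← h3]
  rw [h1]
  have h2 := congrArg (fun q => ev q x) hp.sum_X_mul_pderiv
  simp only [fderiv_ev]
  simpa [ev] using h2

theorem coord_le {x : E n} {r : ℝ} (h : ∀ i, |x i| ≤ r) : ‖x‖ ≤ n * r := by
  have h3 : x = ∑ i, x i • EuclideanSpace.single i (1 : ℝ) := by
    have := (EuclideanSpace.basisFun (Fin n) ℝ).sum_repr x
    simpa using this.symm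
  rw [h3]
  refine (norm_sum_le _ _).trans ?_
  have : ∀ i ∈ (Finset.univ : Finset (Fin n)), ‖x i • (EuclideanSpace.single i (1 : ℝ) : E n)‖ ≤ r := by
    intro i _
    rw [norm_smul]
    simpa using h i
  refine (Finset.sum_le_sum this).trans ?_
  simp

theorem poly_eq_of_ball {p q : MvPolynomial (Fin n) ℝ} {R : ℝ} (hR : 0 < R)
    (h : ∀ x ∈ ball (0 : E n) R, ev p x = ev q x) : p = q := by
  have hr : 0 < R / (n + 1) := by positivity
  apply MvPolynomial.funext_set (fun _ => Icc (-(R / (n + 1))) (R / (n + 1)))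
    (fun _ => Icc_infinite (by linarith))
  intro x hx
  have h1 := h (WithLp.toLp 2 x) ?_
  · simpa [ev] using h1
  · rw [mem_ball_zero_iff]
    have h2 : ‖(WithLp.toLp 2 x : E n)‖ ≤ n * (R / (n + 1)) := by
      apply coord_le
      intro i
      have := hx i (mem_univ i)
      exact abs_le.2 this
    refine h2.trans_lt ?_
    rw [mul_div_assoc', div_lt_iff₀ (by positivity)]
    nlinarith

/-- exponents of the monomials invariant under a group of sign changes -/
def adm (S : Subgroup (Fin n → ℤˣ)) : Set (Fin n →₀ ℕ) := {α | ∀ ε ∈ S, ∏ i, (ε i) ^ (α i) = 1}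

theorem adm_add (S : Subgroup (Fin n → ℤˣ)) (α : Fin n →₀ ℕ) (i : Fin n) :
    α + Finsupp.single i 2 ∈ adm S ↔ α ∈ adm S := by
  have h : ∀ ε : Fin n → ℤˣ, ∏ j, (ε j) ^ ((α + Finsupp.single i 2 : Fin n →₀ ℕ) j) = ∏ j, (ε j) ^ (α j) := by
    intro ε
    refine Finset.prod_congr rfl fun j _ => ?_
    by_cases hij : i = j
    · subst hij
      simp [pow_add]
    · simp [hij]
  simp only [adm, Set.mem_ofPred_eq, h]

/-- the isometry of Euclidean space attached to a vector of signs -/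
noncomputable def signIso (ε : Fin n → ℤˣ) : E n ≃ₗᵢ[ℝ] E n :=
  LinearIsometryEquiv.piLpCongrRight 2
    (fun i => if ε i = 1 then LinearIsometryEquiv.refl ℝ ℝ else LinearIsometryEquiv.neg ℝ)

theorem signIso_apply (ε : Fin n → ℤˣ) (x : E n) (i : Fin n) :
    signIso ε x i = ((ε i : ℤ) : ℝ) * x i := by
  have h : signIso ε x i = (if ε i = 1 then LinearIsometryEquiv.refl ℝ ℝ
    else LinearIsometryEquiv.neg ℝ) (x i) := rfl
  rw [h]
  rcases Int.units_eq_one_or (ε i) with h1 | h1 <;> simp [h1]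

/-- the group of isometries attached to a group of sign vectors -/
def signGroup (S : Subgroup (Fin n → ℤˣ)) : Subgroup (E n ≃ₗᵢ[ℝ] E n) where
  carrier := {γ | ∃ ε ∈ S, ∀ x i, γ x i = ((ε i : ℤ) : ℝ) * x i}
  mul_mem' := by
    rintro γ δ ⟨ε, hε, h1⟩ ⟨ζ, hζ, h2⟩
    refine ⟨ε * ζ, S.mul_mem hε hζ, fun x i => ?_⟩
    show γ (δ x) i = _
    rw [h1, h2]
    simp
    ring
  one_mem' := ⟨1, S.one_mem, fun x i => by simp⟩
  inv_mem' := by
    rintro γ ⟨ε, hε, h1⟩
    refine ⟨ε, hε, fun x i => ?_⟩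
    have h2 := h1 (γ⁻¹ x) i
    have h3 : γ (γ⁻¹ x) = x := by
      show (γ * γ⁻¹) x = x
      rw [mul_inv_cancel]
      rfl
    rw [h3] at h2
    rw [h2, ← mul_assoc]
    rcases Int.units_eq_one_or (ε i) with h4 | h4 <;> simp [h4]

theorem signIso_mem {S : Subgroup (Fin n → ℤˣ)} {ε : Fin n → ℤˣ} (h : ε ∈ S) :
    signIso ε ∈ signGroup S := ⟨ε, h, signIso_apply ε⟩

theorem finite_signGroup (S : Subgroup (Fin n → ℤˣ)) : Finite (signGroup S) := by
  have h : (signGroup S : Set (E n ≃ₗᵢ[ℝ] E n)) ⊆ range (signIso (n := n)) := by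
    rintro γ ⟨ε, -, h⟩
    refine ⟨ε, ?_⟩
    ext x i
    rw [h, signIso_apply]
  exact ((finite_range _).subset h).to_subtype

theorem ev_eq_sum (p : MvPolynomial (Fin n) ℝ) (x : E n) :
    ev p x = ∑ α ∈ p.support, coeff α p * ∏ i, x i ^ α i := by
  rw [ev, eval_eq']

theorem ev_inv_of {S : Subgroup (Fin n → ℤˣ)} {p : MvPolynomial (Fin n) ℝ}
    (h : ∀ α, coeff α p ≠ 0 → α ∈ adm S) {γ : E n ≃ₗᵢ[ℝ] E n} (hγ : γ ∈ signGroup S) (x : E n) :
    ev p (γ x) = ev p x := by
  obtain ⟨ε, hε, h1⟩ := hγ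
  rw [ev_eq_sum, ev_eq_sum]
  refine Finset.sum_congr rfl fun α hα => ?_
  have h2 := h α (mem_support_iff.1 hα) ε hε
  congr 1
  simp only [h1, mul_pow, Finset.prod_mul_distrib]
  have h3 : ∏ i, (((ε i : ℤ) : ℝ)) ^ α i = 1 := by
    have := congrArg (fun u : ℤˣ => ((u : ℤ) : ℝ)) h2
    simpa using this
  rw [h3, one_mul]

theorem inv_coeff {S : Subgroup (Fin n → ℤˣ)} {p : MvPolynomial (Fin n) ℝ} {R : ℝ} (hR : 0 < R)
    (h : ∀ γ ∈ signGroup S, ∀ x ∈ ball (0 : E n) R, ev p (γ x) = ev p x) :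
    ∀ α, coeff α p ≠ 0 → α ∈ adm S := by
  classical
  intro α hα ε hε
  set q : MvPolynomial (Fin n) ℝ :=
    ∑ β ∈ p.support, monomial β (coeff β p * ∏ i, (((ε i : ℤ) : ℝ)) ^ β i) with hq
  have hqc : coeff α q = coeff α p * ∏ i, (((ε i : ℤ) : ℝ)) ^ α i := by
    rw [hq, coeff_sum]
    simp only [coeff_monomial]
    rw [Finset.sum_ite_eq', if_pos (mem_support_iff.2 hα)]
  have hqe : ∀ x : E n, ev q x = ev p (signIso ε x) := by
    intro x
    rw [ev_eq_sum p]
    simp only [ev, hq, map_sum, eval_monomial]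
    refine Finset.sum_congr rfl fun β _ => ?_
    simp only [signIso_apply, mul_pow, Finset.prod_mul_distrib]
    rw [Finsupp.prod_fintype _ _ (by simp)]
    ring
  have hpq : q = p := by
    apply poly_eq_of_ball hR
    intro x hx
    rw [hqe, h _ (signIso_mem hε) x hx]
  rw [hpq] at hqc
  have h1 : ∏ i, (((ε i : ℤ) : ℝ)) ^ α i = 1 := by
    have : coeff α p * (∏ i, (((ε i : ℤ) : ℝ)) ^ α i - 1) = 0 := by linarith
    rcases mul_eq_zero.1 this with h2 | h2
    · exact absurd h2 hα
    · linarith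
  have h2 : (((∏ i, (ε i) ^ (α i) : ℤˣ) : ℤ) : ℝ) = 1 := by
    push_cast
    simpa using h1
  have h3 : ((∏ i, (ε i) ^ (α i) : ℤˣ) : ℤ) = 1 := by exact_mod_cast h2
  exact Units.ext h3

end Pool.Agent.W545.Orb
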