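import Mathlib
set_option autoImplicit false
open Metric Set Filter Topology
open scoped ContDiff InnerProductSpace Laplacian

namespace Pool.Agent.W545.Orb

variable {V : Type*} [NormedAddCommGroup V] [InnerProductSpace ℝ V] [FiniteDimensional ℝ V]

theorem deriv2_nonpos {g : ℝ → ℝ} {s : ℝ} (hg : IsLocalMax g s) (hc : ContinuousAt g s) :
    deriv (deriv g) s ≤ 0 := by
  by_contra h
  push Not at h
  have h2 : IsLocalMin g s := isLocalMin_of_deriv_deriv_pos h hg.deriv_eq_zero hc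
  have h3 : g =ᶠ[𝓝 s] fun _ => g s := by
    filter_upwards [hg, h2] with x hx hx'
    exact le_antisymm hx hx'
  have h4 : deriv g =ᶠ[𝓝 s] deriv (fun _ => g s) := h3.deriv
  rw [h4.deriv_eq] at h
  simp at h

omit [FiniteDimensional ℝ V] in
/-- second derivative along a line -/
theorem second_nonpos {f : V → ℝ} {x : V} (hf : ContDiffAt ℝ 2 f x) (hm : IsLocalMax f x) (v : V) :
    iteratedFDeriv ℝ 2 f x ![v, v] ≤ 0 := by
  rw [iteratedFDeriv_two_apply]
  simp only [Matrix.cons_val_zero, Matrix.cons_val_one, Matrix.cons_val_fin_one]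
  set g : ℝ → ℝ := fun s => f (x + s • v) with hg
  have hline : ∀ s : ℝ, HasDerivAt (fun s : ℝ => x + s • v) v s := by
    intro s
    have := ((hasDerivAt_id s).smul_const v).const_add x
    simpa using this
  have hx0 : x + (0 : ℝ) • v = x := by simp
  have htend : Tendsto (fun s : ℝ => x + s • v) (𝓝 0) (𝓝 x) := by
    have := (hline 0).continuousAt.tendsto
    rwa [hx0] at this
  have hev0 : ∀ᶠ y in 𝓝 x, ContDiffAt ℝ 2 f y := hf.eventually (by simp)
  have hev : ∀ᶠ s in 𝓝 (0 : ℝ), ContDiffAt ℝ 2 f (x + s • v) := htend.eventually hev0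
  have hd : DifferentiableAt ℝ (fderiv ℝ f) x :=
    (hf.fderiv_right (m := 1) (by norm_num)).differentiableAt one_ne_zero
  have hg1 : deriv g =ᶠ[𝓝 0] fun s => fderiv ℝ f (x + s • v) v := by
    filter_upwards [hev] with s hs
    have h1 : HasFDerivAt f (fderiv ℝ f (x + s • v)) (x + s • v) :=
      (hs.differentiableAt two_ne_zero).hasFDerivAt
    exact (h1.comp_hasDerivAt s (hline s)).deriv
  have hg2 : deriv (deriv g) 0 = fderiv ℝ (fderiv ℝ f) x v v := by
    rw [hg1.deriv_eq]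
    have h1 : HasFDerivAt (fderiv ℝ f) (fderiv ℝ (fderiv ℝ f) x) (x + (0 : ℝ) • v) := by
      rw [hx0]
      exact hd.hasFDerivAt
    have h2 : HasDerivAt (fun s : ℝ => fderiv ℝ f (x + s • v)) (fderiv ℝ (fderiv ℝ f) x v) 0 :=
      h1.comp_hasDerivAt (0 : ℝ) (hline 0)
    have h3 : HasDerivAt (fun s : ℝ => fderiv ℝ f (x + s • v) v)
        (fderiv ℝ (fderiv ℝ f) x v v) 0 := by
      have := h2.clm_apply (hasDerivAt_const (0 : ℝ) v)
      simpa using this
    exact h3.deriv
  have hgmax : IsLocalMax g 0 := by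
    have h1 : ∀ᶠ y in 𝓝 x, f y ≤ f x := hm
    have h2 := htend.eventually h1
    filter_upwards [h2] with s hs
    simp only [hg, hx0]
    exact hs
  have hgc : ContinuousAt g 0 := by
    have h1 : ContinuousAt f (x + (0 : ℝ) • v) := by
      rw [hx0]
      exact hf.continuousAt
    exact ContinuousAt.comp (f := fun s : ℝ => x + s • v) (g := f) h1 (hline 0).continuousAt
  rw [← hg2]
  exact deriv2_nonpos hgmax hgc

theorem laplacian_nonpos {f : V → ℝ} {x : V} (hf : ContDiffAt ℝ 2 f x) (hm : IsLocalMax f x) :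
    Δ f x ≤ 0 := by
  rw [InnerProductSpace.laplacian_eq_iteratedFDeriv_stdOrthonormalBasis]
  exact Finset.sum_nonpos fun i _ => second_nonpos hf hm _

theorem laplacian_normSq (x : V) : Δ (fun y : V => ‖y‖ ^ 2) x = 2 * Module.finrank ℝ V := by
  have h1 : fderiv ℝ (fun y : V => ‖y‖ ^ 2) = fun y => 2 • (innerSL ℝ y) := by
    funext y
    exact fderiv_norm_sq_apply y
  rw [InnerProductSpace.laplacian_eq_iteratedFDeriv_stdOrthonormalBasis]
  simp only [iteratedFDeriv_two_apply, Matrix.cons_val_zero, Matrix.cons_val_one,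
    Matrix.cons_val_fin_one, h1]
  have h2 : ∀ v : V, fderiv ℝ (fun y : V => 2 • (innerSL ℝ y)) x v v = 2 * ‖v‖ ^ 2 := by
    intro v
    have h3 : HasFDerivAt (fun y : V => 2 • (innerSL ℝ y)) (2 • (innerSL ℝ : V →L[ℝ] V →L[ℝ] ℝ)) x := by
      exact ((innerSL ℝ : V →L[ℝ] V →L[ℝ] ℝ).hasFDerivAt).const_smul 2
    rw [h3.fderiv]
    have h4 : innerSL ℝ v v = ‖v‖ ^ 2 := by
      rw [innerSL_apply_apply, real_inner_self_eq_norm_sq]
    simp [h4]
  simp [h2]
  ring

/-- weak maximum principle on the ball -/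
theorem weak_max (hV : 0 < Module.finrank ℝ V) {U : V → ℝ} {R : ℝ}
    (h2 : ContDiffOn ℝ 2 U (ball 0 R)) (hc : ContinuousOn U (closedBall 0 R))
    (hΔ : ∀ x ∈ ball (0 : V) R, Δ U x = 0) {ε : ℝ} (hb : ∀ x ∈ sphere (0 : V) R, U x ≤ ε) :
    ∀ x ∈ closedBall (0 : V) R, U x ≤ ε := by
  intro x hx
  have key : ∀ δ > 0, U x ≤ ε + δ * R ^ 2 := by
    intro δ hδ
    set W : V → ℝ := fun y => U y + δ * ‖y‖ ^ 2 with hW
    have hWc : ContinuousOn W (closedBall 0 R) := hc.add (by fun_prop)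
    obtain ⟨y, hy, hmax⟩ := (isCompact_closedBall (0 : V) R).exists_isMaxOn ⟨x, hx⟩ hWc
    have h3 : W x ≤ W y := hmax hx
    have h4 : U x ≤ W x := by
      have : 0 ≤ δ * ‖x‖ ^ 2 := by positivity
      simp only [hW]; linarith
    rcases (mem_closedBall.1 hy).lt_or_eq with h5 | h5
    · exfalso
      have hyb : y ∈ ball (0 : V) R := h5
      have hU : ContDiffAt ℝ 2 U y := h2.contDiffAt (isOpen_ball.mem_nhds hyb)
      have hN : ContDiffAt ℝ 2 (fun z : V => ‖z‖ ^ 2) y := (contDiff_norm_sq ℝ).contDiffAt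
      have hWd : ContDiffAt ℝ 2 W y := hU.add (contDiffAt_const.mul hN)
      have hm : IsLocalMax W y := by
        filter_upwards [isOpen_ball.mem_nhds hyb] with z hz
        exact hmax (ball_subset_closedBall hz)
      have h6 := laplacian_nonpos hWd hm
      have h7 : Δ W y = Δ U y + δ * Δ (fun z : V => ‖z‖ ^ 2) y := by
        have e1 : W = U + δ • (fun z : V => ‖z‖ ^ 2) := by
          funext z; simp [hW]
        have hN' : ContDiffAt ℝ 2 (δ • fun z : V => ‖z‖ ^ 2) y := hN.const_smul δ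
        rw [e1, hU.laplacian_add hN', InnerProductSpace.laplacian_smul δ hN]
        simp
      rw [h7, hΔ y hyb, laplacian_normSq] at h6
      have : (0 : ℝ) < Module.finrank ℝ V := by exact_mod_cast hV
      nlinarith [mul_pos hδ this]
    · have h6 : U y ≤ ε := hb y h5
      have h7 : ‖y‖ = R := by rwa [dist_zero_right] at h5
      have h8 : W y = U y + δ * R ^ 2 := by simp only [hW, h7]
      linarith
  have h5 : Tendsto (fun δ : ℝ => ε + δ * R ^ 2) (𝓝[>] 0) (𝓝 (ε + 0 * R ^ 2)) := by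
    apply Tendsto.mono_left _ nhdsWithin_le_nhds
    exact Continuous.tendsto (by fun_prop) 0
  have h6 := ge_of_tendsto h5 (eventually_nhdsWithin_of_forall fun δ hδ => key δ hδ)
  simpa using h6

theorem weak_max_abs (hV : 0 < Module.finrank ℝ V) {U : V → ℝ} {R : ℝ}
    (h2 : ContDiffOn ℝ 2 U (ball 0 R)) (hc : ContinuousOn U (closedBall 0 R))
    (hΔ : ∀ x ∈ ball (0 : V) R, Δ U x = 0) {ε : ℝ} (hb : ∀ x ∈ sphere (0 : V) R, |U x| ≤ ε) :
    ∀ x ∈ closedBall (0 : V) R, |U x| ≤ ε := by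
  intro x hx
  refine abs_le'.2 ⟨weak_max hV h2 hc hΔ (fun y hy => (abs_le'.1 (hb y hy)).1) x hx, ?_⟩
  refine weak_max hV (U := -U) h2.neg hc.neg (fun y hy => ?_) (fun y hy => (abs_le'.1 (hb y hy)).2) x hx
  have e1 : -U = (-1 : ℝ) • U := by funext z; simp
  rw [e1, InnerProductSpace.laplacian_smul (-1 : ℝ) (h2.contDiffAt (isOpen_ball.mem_nhds hy)), hΔ y hy]
  simp

end Pool.Agent.W545.Orb
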